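import Mathlib

set_option autoImplicit false

namespace Pool.Agent.Results.MP_664517_co.ExplicitBound

open Finset

universe u
open scoped Classical

/-- total domination number -/
noncomputable def gt {V : Type*} (G : SimpleGraph V) : ℕ :=
  sInf {k | ∃ S : Finset V, S.card = k ∧ ∀ v, ∃ u ∈ S, G.Adj v u}

/-- 3-total-domination edge-critical -/
def EC3 {V : Type*} (G : SimpleGraph V) : Prop :=
  (∀ v, ∃ u, G.Adj v u) ∧ gt G = 3 ∧
    ∀ u v, u ≠ v → ¬ G.Adj u v → gt (G ⊔ SimpleGraph.edge u v) < 3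

def T {V : Type*} (G : SimpleGraph V) (x y z : V) : Prop :=
  G.Adj x z ∧ ¬ G.Adj y x ∧ ¬ G.Adj y z ∧ ∀ w, w ≠ y → G.Adj w x ∨ G.Adj w z

def St {V : Type*} (G : SimpleGraph V) : Prop :=
  ∀ u v w, u ≠ v → ¬ G.Adj u v → w ≠ u → w ≠ v → ¬ G.Adj w u → ¬ G.Adj w v →
    ∃ z, T G u v z ∨ T G v u z

theorem st {V : Type*} [Fintype V] (G : SimpleGraph V) (h : EC3 G) : St G := by
  intro u v w h1 h2 h3 h4 h5 h6
  have k := h.2.2 u v h1 h2
  obtain ⟨S, hS, hd⟩ : ∃ S : Finset V, S.card = gt (G ⊔ SimpleGraph.edge u v) ∧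
      ∀ x, ∃ y ∈ S, (G ⊔ SimpleGraph.edge u v).Adj x y :=
    Nat.sInf_mem (s := {k | ∃ S : Finset V, S.card = k ∧ ∀ x, ∃ y ∈ S,
      (G ⊔ SimpleGraph.edge u v).Adj x y})
      ⟨_, univ, rfl, fun x => (h.1 x).imp fun y hy => ⟨mem_univ _, Or.inl hy⟩⟩
  have nd : ¬ ∀ x, ∃ y ∈ S, G.Adj x y := fun j => by
    have : gt G ≤ S.card := Nat.sInf_le ⟨S, rfl, j⟩
    have := h.2.1
    omega
  obtain ⟨a, ha, -⟩ := hd u
  obtain ⟨b, hb, hab⟩ := hd a
  have e : S = {a, b} := (eq_of_subset_of_card_le (insert_subset ha (singleton_subset_iff.2 hb))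
    (by rw [card_pair hab.ne]; omega)).symm
  subst e
  simp only [mem_insert, mem_singleton, exists_eq_or_imp, exists_eq_left, SimpleGraph.sup_adj,
    SimpleGraph.edge_adj, not_forall] at hd nd hab
  obtain ⟨x, hx⟩ := nd
  have s1 := G.adj_comm a b
  have l1 := G.irrefl (v := a)
  have l2 := G.irrefl (v := b)
  have q1 := hd x
  have q2 := hd w
  by_cases c1 : a = u ∧ x = v
  · refine ⟨b, Or.inl ⟨by grind, by grind, by grind, fun y hy => ?_⟩⟩
    have := hd y
    grind
  by_cases c2 : b = u ∧ x = v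
  · refine ⟨a, Or.inl ⟨by grind, by grind, by grind, fun y hy => ?_⟩⟩
    have := hd y
    grind
  by_cases c3 : a = v ∧ x = u
  · refine ⟨b, Or.inr ⟨by grind, by grind, by grind, fun y hy => ?_⟩⟩
    have := hd y
    grind
  · refine ⟨a, Or.inr ⟨by grind, by grind, by grind, fun y hy => ?_⟩⟩
    have := hd y
    grind

theorem step {V : Type*} [Fintype V] (G : SimpleGraph V) (h : St G) (S : Finset V) (D : ℕ)
    (hD : ∀ v ∈ S, (S.filter (G.Adj v)).card ≤ D) (m : ℕ) (h1 : 2 * D + 2 < S.card)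
    (h2 : 2 * D ≤ m) (h3 : 4 * (Fintype.card V * m) < S.card * S.card) :
    ∃ y ∈ S, ∃ z, ∃ S' ⊆ S, m < S'.card ∧ ∀ x ∈ S', T G x y z := by
  let P := (S ×ˢ S).filter fun p => ∃ z, T G p.1 p.2 z
  have a1 : S.card * S.card ≤ 2 * P.card + S.card * (D + 1) := by
    have : S ×ˢ S ⊆ (P ∪ P.image Prod.swap) ∪
        S.biUnion fun u => (insert u (S.filter (G.Adj u))).image fun v => (u, v) := by
      rintro ⟨u, v⟩ huv
      rw [mem_product] at huv
      by_cases k : u = v ∨ G.Adj u v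
      · refine mem_union_right _ (mem_biUnion.2 ⟨u, huv.1, mem_image.2 ⟨v, ?_, rfl⟩⟩)
        rcases k with k | k <;> simp_all
      rw [not_or] at k
      obtain ⟨w, hwS, hw⟩ := exists_mem_notMem_of_card_lt_card (s := insert u (insert v
        (S.filter (G.Adj u) ∪ S.filter (G.Adj v)))) (t := S) (by
          have := card_insert_le u (insert v (S.filter (G.Adj u) ∪ S.filter (G.Adj v)))
          have := card_insert_le v (S.filter (G.Adj u) ∪ S.filter (G.Adj v))
          have := card_union_le (S.filter (G.Adj u)) (S.filter (G.Adj v))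
          have := hD u huv.1
          have := hD v huv.2
          omega)
      simp only [mem_insert, mem_union, mem_filter, not_or, hwS, true_and] at hw
      obtain ⟨z, hz | hz⟩ := h u v w k.1 k.2 hw.1 hw.2.1 (fun j => hw.2.2.1 j.symm)
        (fun j => hw.2.2.2 j.symm)
      · exact mem_union_left _ (mem_union_left _ (mem_filter.2 ⟨mem_product.2 huv, z, hz⟩))
      · exact mem_union_left _ (mem_union_right _ (mem_image.2 ⟨(v, u),
          mem_filter.2 ⟨mem_product.2 huv.symm, z, hz⟩, rfl⟩))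
    have b1 := (card_le_card this).trans (card_union_le _ _)
    have b2 := card_union_le P (P.image Prod.swap)
    have b3 : (P.image Prod.swap).card ≤ P.card := card_image_le
    have b4 := card_biUnion_le_card_mul S
      (fun u => (insert u (S.filter (G.Adj u))).image fun v => (u, v)) (D + 1) fun u hu =>
        card_image_le.trans ((card_insert_le _ _).trans (Nat.succ_le_succ (hD u hu)))
    rw [card_product] at b1
    omega
  obtain ⟨z, hz⟩ : ∃ z, m < (S.filter fun x => ∃ y ∈ S, T G x y z).card := by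
    by_contra k
    push Not at k
    have b1 : P ⊆ univ.biUnion fun z => P.filter fun p => T G p.1 p.2 z := fun p hp => by
      obtain ⟨z, hz⟩ := (mem_filter.1 hp).2
      exact mem_biUnion.2 ⟨z, mem_univ _, mem_filter.2 ⟨hp, hz⟩⟩
    have b2 := (card_le_card b1).trans (card_biUnion_le_card_mul _ _ m fun z _ => by
      refine le_trans (card_le_card_of_injOn Prod.fst ?_ ?_) (k z)
      · intro p hp
        simp only [P, coe_filter, mem_filter, mem_product, Set.mem_ofPred_eq] at hp ⊢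
        exact ⟨hp.1.1.1, p.2, hp.1.1.2, hp.2⟩
      · rintro ⟨x, y⟩ hp ⟨x', y'⟩ hq (rfl : x = x')
        have c1 := (mem_filter.1 hp).2
        have c2 := (mem_filter.1 hq).2
        by_contra j
        rcases c1.2.2.2 y' (fun e => j (by rw [show y' = y from e])) with i | i
        exacts [c2.2.1 i, c2.2.2.1 i])
    rw [card_univ] at b2
    nlinarith
  obtain ⟨x, hx⟩ := card_pos.1 (lt_of_le_of_lt (Nat.zero_le _) hz)
  obtain ⟨-, y, hy, hT⟩ := mem_filter.1 hx
  refine ⟨y, hy, z, _, filter_subset _ _, hz, fun x' hx' => ?_⟩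
  obtain ⟨-, y', hy', hT'⟩ := mem_filter.1 hx'
  by_cases e : y' = y
  · exact e ▸ hT'
  have : (S.filter fun x => ∃ y ∈ S, T G x y z) ⊆ S.filter (G.Adj y) ∪ S.filter (G.Adj y') := by
    intro w hw
    obtain ⟨w1, t, -, ht⟩ := mem_filter.1 hw
    simp only [mem_union, mem_filter, w1, true_and]
    by_cases j : y = t
    · exact Or.inr ((ht.2.2.2 y' (j ▸ e)).resolve_right hT'.2.2.1)
    · exact Or.inl ((ht.2.2.2 y j).resolve_right hT.2.2.1)
  have := (card_le_card this).trans (card_union_le _ _)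
  have := hD y hy
  have := hD y' hy'
  omega

theorem P (k : ℕ) : ∀ b : ℕ, 0 < b → ∀ (V : Type u) [Fintype V] (G : SimpleGraph V),
    2 * (5 * b) ^ 2 ^ k ≤ Fintype.card V → St G → ∀ S : Finset V, Fintype.card V ≤ b * S.card →
      (∀ v ∈ S, (5 * b) ^ 2 ^ k * (S.filter (G.Adj v)).card ≤ Fintype.card V) →
      ∃ Z, G.IsNClique k Z ∧ ∀ z ∈ Z, ∃ x ∈ S, ∃ y ∈ S, T G x y z := by
  induction k with
  | zero => exact fun b _ V _ G _ _ S _ _ => ⟨∅, by simp, by simp⟩
  | succ k ih =>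
    intro b hb V _ G hn hG S h1 h2
    have H := ih (5 * b * b) (by positivity)
    set n := Fintype.card V with hnV
    have e1 : (5 * (5 * b * b)) ^ 2 ^ k = (5 * b) ^ 2 ^ (k + 1) := by
      rw [show 5 * (5 * b * b) = (5 * b) ^ 2 by ring, ← pow_mul, pow_succ 2 k, mul_comm 2]
    have e2 : 10 * b * b ≤ (5 * b) ^ 2 ^ (k + 1) := by
      have h3 : (5 * b) ^ 2 ≤ (5 * b) ^ 2 ^ (k + 1) := by
        apply Nat.pow_le_pow_right (by omega)
        calc 2 = 2 ^ 1 := by norm_num
          _ ≤ 2 ^ (k + 1) := Nat.pow_le_pow_right (by norm_num) (by omega)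
      nlinarith
    have e3 : 10 * b + 1 ≤ n := by
      nlinarith
    have p : 0 < 10 * b * b := by positivity
    have d1 := Nat.mul_div_le n (10 * b * b)
    have d2 := Nat.lt_mul_div_succ n (show 0 < 5 * b * b by positivity)
    have d3 := Nat.mul_div_le n (5 * b * b)
    obtain ⟨y, hy, z, S', s1, s2, s3⟩ := step G hG S (n / (10 * b * b))
      (fun v hv => (Nat.le_div_iff_mul_le p).2 (by
        have h4 := h2 v hv
        have h5 := Nat.mul_le_mul_right (S.filter (G.Adj v)).card e2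
        rw [mul_comm]
        exact h5.trans h4)) (n / (5 * b * b))
      (by
        refine Nat.lt_of_mul_lt_mul_left (a := 10 * b * b) ?_
        nlinarith [Nat.mul_le_mul_left (10 * b) h1, Nat.mul_le_mul_right n hb])
      ((Nat.le_div_iff_mul_le (by positivity)).2 (by nlinarith))
      (by
        rw [← hnV]
        refine Nat.lt_of_mul_lt_mul_left (a := 5 * b * b) ?_
        nlinarith [Nat.mul_le_mul h1 h1, Nat.mul_le_mul_left n d3])
    obtain ⟨Z, z1, z2⟩ := H V G (by rw [e1]; exact hn) hG S' (by nlinarith) fun v hv => by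
      have := card_le_card (filter_subset_filter (G.Adj v) s1)
      rw [e1]
      exact (Nat.mul_le_mul_left _ this).trans (h2 v (s1 hv))
    refine ⟨insert z Z, z1.insert fun w hw => ?_, fun w hw => ?_⟩
    · obtain ⟨x, hx, t, ht, hT⟩ := z2 w hw
      have e : w ≠ y := fun j => (s3 x hx).2.1 (j ▸ hT.1.symm)
      exact (((s3 t ht).2.2.2 w e).resolve_left fun j => hT.2.2.1 j.symm).symm
    · rcases mem_insert.1 hw with rfl | hw
      · obtain ⟨x, hx⟩ := card_pos.1 (lt_of_le_of_lt (Nat.zero_le _) s2)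
        exact ⟨x, s1 hx, y, hy, s3 x hx⟩
      · obtain ⟨x, hx, t, ht, hT⟩ := z2 w hw
        exact ⟨x, s1 hx, t, s1 ht, hT⟩

theorem Q (p j : ℕ) : ∀ b : ℕ, 0 < b → ∀ (V : Type u) [Fintype V] (G : SimpleGraph V),
    2 * (5 * b) ^ (2 ^ p + 1) ^ j ≤ Fintype.card V → St G → G.CliqueFree p →
    ∀ S : Finset V, Fintype.card V ≤ b * S.card → ∃ Z ⊆ S, G.IsNClique j Z := by
  induction j with
  | zero => exact fun b _ V _ G _ _ _ S _ => ⟨∅, by simp, by simp⟩
  | succ j ih =>
    intro b hb V _ G hn hG hp S hS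
    have e1 : (5 * b) ^ 2 ^ p ≤ (5 * b) ^ (2 ^ p + 1) ^ (j + 1) := by
      apply Nat.pow_le_pow_right (by omega)
      calc 2 ^ p ≤ 2 ^ p + 1 := Nat.le_succ _
        _ = (2 ^ p + 1) ^ 1 := (pow_one _).symm
        _ ≤ (2 ^ p + 1) ^ (j + 1) := Nat.pow_le_pow_right (Nat.succ_pos _) (by omega)
    have e2 : (5 * (5 * b) ^ 2 ^ p) ^ (2 ^ p + 1) ^ j ≤ (5 * b) ^ (2 ^ p + 1) ^ (j + 1) := by
      have h1 : 5 * (5 * b) ^ 2 ^ p ≤ (5 * b) ^ (2 ^ p + 1) := by
        rw [pow_succ, mul_comm]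
        exact Nat.mul_le_mul_left _ (by omega)
      calc (5 * (5 * b) ^ 2 ^ p) ^ (2 ^ p + 1) ^ j ≤ ((5 * b) ^ (2 ^ p + 1)) ^ (2 ^ p + 1) ^ j :=
            Nat.pow_le_pow_left h1 _
        _ = (5 * b) ^ (2 ^ p + 1) ^ (j + 1) := by
            rw [← pow_mul, pow_succ (2 ^ p + 1) j, mul_comm (2 ^ p + 1)]
    by_cases k : ∀ v ∈ S, (5 * b) ^ 2 ^ p * (S.filter (G.Adj v)).card ≤ Fintype.card V
    · obtain ⟨Z, hZ, -⟩ := P p b hb V G (by omega) hG S hS k
      exact absurd hZ (hp Z)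
    push Not at k
    obtain ⟨v, hv, k⟩ := k
    obtain ⟨Z, z1, z2⟩ := ih ((5 * b) ^ 2 ^ p) (by positivity) V G (by omega) hG hp _ k.le
    exact ⟨insert v Z, insert_subset hv (z1.trans (filter_subset _ _)),
      z2.insert fun w hw => (mem_filter.1 (z1 hw)).2⟩

/-- **Theorem.** A `K_p`-free 3-total-domination edge-critical finite graph has fewer than
`2 * 5 ^ ((2 ^ p + 1) ^ p)` vertices. -/
theorem result (p : ℕ) (V : Type u) [Fintype V] (G : SimpleGraph V) (h : EC3 G)
    (hp : G.CliqueFree p) : Fintype.card V < 2 * 5 ^ (2 ^ p + 1) ^ p := by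
  by_contra k
  obtain ⟨Z, -, hZ⟩ := Q p p 1 one_pos V G (by simpa using k) (st G h) hp univ (by simp)
  exact hp Z hZ

end Pool.Agent.Results.MP_664517_co.ExplicitBound
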